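import Mathlib

open Finset

namespace Pool.Agent.Results.MP_ca7dc8_pr.Drop

/-- Position in `ℤ^d` after the steps `w 0, …, w (t-1)`; a step is `±e_i`. -/
def pos {d t : ℕ} (w : Fin t → Fin d × Bool) : Fin d → ℤ :=
  ∑ r, Pi.single (w r).1 (if (w r).2 then 1 else -1)

/-- `p_{n,d}(t)`: all `(2d)^{nt}` step arrays are equally likely. -/
noncomputable def p (n d t : ℕ) : ℝ :=
  ((univ.filter fun ω : Fin n → Fin t → Fin d × Bool =>
    ∃ i, ∀ j, j ≠ i → pos (ω j) ≠ pos (ω i)).card : ℝ) / (2 * d) ^ (n * t)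

section
variable {W S : Type} [Fintype W] [DecidableEq W] [DecidableEq S] (f : W → S) (n : ℕ)

def c (s : S) : ℕ := (univ.filter fun w => f w = s).card

def E (s : S) (i : Fin n) : Finset (Fin n → W) :=
  univ.filter fun ω => f (ω i) = s ∧ ∀ j, j ≠ i → f (ω j) ≠ s

def A (s : S) : Finset (Fin n → W) := univ.biUnion (E f n s)

lemma card_ne (s : S) : (univ.filter fun w => f w ≠ s).card = Fintype.card W - c f s := by
  have := card_filter_add_card_filter_not (s := univ) (fun w => f w = s)
  rw [card_univ] at this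
  unfold c; simp only [ne_eq]; omega

lemma disj (s : S) : ((univ : Finset (Fin n)) : Set (Fin n)).PairwiseDisjoint (E f n s) :=
  fun i _ j _ hij => disjoint_filter.2 fun _ _ h h' => h'.2 i hij h.1

lemma card_A (s : S) : (A f n s).card = n * (c f s * (Fintype.card W - c f s) ^ (n - 1)) := by
  rw [A, card_biUnion (disj f n s), sum_congr rfl (g := fun _ => c f s *
    (Fintype.card W - c f s) ^ (n - 1)) fun i _ => ?_]
  · simp
  have : E f n s i = Fintype.piFinset fun j =>
      if j = i then univ.filter fun w => f w = s else univ.filter fun w => f w ≠ s := by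
    ext ω
    simp only [E, mem_filter, mem_univ, true_and, Fintype.mem_piFinset]
    constructor
    · intro h j
      split_ifs with hj
      · simp [hj, h.1]
      · simp [h.2 j hj]
    · intro h
      exact ⟨by simpa using h i, fun j hj => by simpa [hj] using h j⟩
  rw [this, Fintype.card_piFinset, ← mul_prod_erase _ _ (mem_univ i), if_pos rfl,
    prod_congr rfl (g := fun _ => Fintype.card W - c f s) fun j hj => by
      rw [if_neg (mem_erase.1 hj).1, card_ne]]
  simp [c]

lemma card_AA {s s' : S} (h : s ≠ s') : (A f n s ∩ A f n s').card =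
    n * ((n - 1) * (c f s * (c f s' * (Fintype.card W - c f s - c f s') ^ (n - 1 - 1)))) := by
  have h0 : (univ.filter fun w => f w ≠ s ∧ f w ≠ s').card = Fintype.card W - c f s - c f s' := by
    have := card_filter_add_card_filter_not (s := univ.filter fun w => f w ≠ s) (fun w => f w = s')
    rw [card_ne, filter_filter, filter_filter, filter_congr (q := fun w => f w = s')
      (fun w _ => ⟨fun h => h.2, fun h' => ⟨h' ▸ h.symm, h'⟩⟩)] at this
    unfold c at this ⊢; simp only [ne_eq] at this ⊢; omega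
  rw [A, biUnion_inter, card_biUnion (fun i hi j hj hij => (disj f n s hi hj hij).mono
    inter_subset_left inter_subset_left), sum_congr rfl (g := fun _ => (n - 1) *
      (c f s * (c f s' * (Fintype.card W - c f s - c f s') ^ (n - 1 - 1)))) fun i _ => ?_]
  · simp
  rw [A, inter_biUnion, card_biUnion (fun i hi j hj hij => (disj f n s' hi hj hij).mono
    inter_subset_right inter_subset_right), ← add_sum_erase _ _ (mem_univ i),
    sum_congr rfl (g := fun _ =>
      (c f s * (c f s' * (Fintype.card W - c f s - c f s') ^ (n - 1 - 1)))) fun k hk => ?_]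
  · have : E f n s i ∩ E f n s' i = ∅ := by
      ext ω; simp only [E, mem_inter, mem_filter, notMem_empty, iff_false]
      exact fun h' => h (h'.1.2.1.symm.trans h'.2.2.1)
    simp [this]
  have hk := (mem_erase.1 hk).1
  have : E f n s i ∩ E f n s' k = Fintype.piFinset fun j =>
      if j = i then univ.filter fun w => f w = s else if j = k then univ.filter fun w => f w = s'
      else univ.filter fun w => f w ≠ s ∧ f w ≠ s' := by
    ext ω
    simp only [E, mem_inter, mem_filter, mem_univ, true_and, Fintype.mem_piFinset]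
    constructor
    · intro h j
      split_ifs with hj hj'
      · simp [hj, h.1.1]
      · simp [hj', h.2.1]
      · simp [h.1.2 j hj, h.2.2 j hj']
    · intro h'
      have hi : f (ω i) = s := by simpa using h' i
      have hk' : f (ω k) = s' := by simpa [hk] using h' k
      refine ⟨⟨hi, fun j hj => ?_⟩, hk', fun j hj => ?_⟩
      · by_cases hjk : j = k
        · rw [hjk, hk']; exact h.symm
        · have := h' j; simp [hj, hjk] at this; exact this.1
      · by_cases hji : j = i
        · rw [hji, hi]; exact h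
        · have := h' j; simp [hj, hji] at this; exact this.2
  rw [this, Fintype.card_piFinset, ← mul_prod_erase _ _ (mem_univ i), if_pos rfl,
    ← mul_prod_erase _ _ (mem_erase.2 ⟨hk, mem_univ k⟩), if_neg hk, if_pos rfl,
    prod_congr rfl (g := fun _ => Fintype.card W - c f s - c f s') fun j hj => by
      rw [if_neg (mem_erase.1 (mem_erase.1 hj).2).1, if_neg (mem_erase.1 hj).1, h0]]
  simp [c, card_erase_of_mem (mem_erase.2 ⟨hk, mem_univ k⟩)]

lemma lower {s s' : S} : (A f n s).card + (A f n s').card ≤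
    (univ.filter fun ω : Fin n → W => ∃ i, ∀ j, j ≠ i → f (ω j) ≠ f (ω i)).card +
      (A f n s ∩ A f n s').card := by
  rw [← card_union_add_card_inter]
  refine Nat.add_le_add_right (card_le_card fun ω hω => ?_) _
  simp only [A, E, mem_union, mem_biUnion, mem_filter, mem_univ, true_and] at hω ⊢
  rcases hω with ⟨i, rfl, h⟩ | ⟨i, rfl, h⟩ <;> exact ⟨i, h⟩

lemma upper {s s' : S} (T : Finset S) (hT : ∀ w, f w = s ∨ f w = s' ∨ f w ∈ T) :
    (univ.filter fun ω : Fin n → W => ∃ i, ∀ j, j ≠ i → f (ω j) ≠ f (ω i)).card +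
      (A f n s ∩ A f n s').card ≤ (A f n s).card + (A f n s').card + ∑ x ∈ T, (A f n x).card := by
  rw [← card_union_add_card_inter (A f n s), add_right_comm]
  refine Nat.add_le_add_right (le_trans (card_le_card fun ω hω => ?_) ((card_union_le _ _).trans
    (Nat.add_le_add_left (card_biUnion_le (s := T) (t := A f n)) _))) _
  simp only [A, E, mem_union, mem_biUnion, mem_filter, mem_univ, true_and] at hω ⊢
  obtain ⟨i, h⟩ := hω
  rcases hT (ω i) with h' | h' | h'
  · exact Or.inl (Or.inl ⟨i, h', h' ▸ h⟩)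
  · exact Or.inl (Or.inr ⟨i, h', h' ▸ h⟩)
  · exact Or.inr ⟨_, h', i, rfl, h⟩
end

def pz {t : ℕ} (w : Fin t → Fin 1 × Bool) : ℤ := ∑ r, if (w r).2 then 1 else -1

lemma pos_iff {t : ℕ} (w w' : Fin t → Fin 1 × Bool) : pos w = pos w' ↔ pz w = pz w' := by
  have : ∀ w : Fin t → Fin 1 × Bool, pos w 0 = pz w := fun w => by
    simp only [pos, pz, Finset.sum_apply, Pi.single_apply]
    exact sum_congr rfl fun r _ => if_pos (Subsingleton.elim _ _)
  rw [← this, ← this]
  exact ⟨fun h => by rw [h], fun h => funext fun i => by rwa [Subsingleton.elim i 0]⟩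

lemma sum_cons {n : ℕ} (f : (Fin (n + 1) → Fin 1 × Bool) → ℕ) :
    ∑ a, f a = ∑ x, ∑ a : Fin n → Fin 1 × Bool, f (Matrix.vecCons x a) := by
  rw [← Fintype.sum_prod_type']
  exact (Fintype.sum_equiv (Fin.consEquiv fun _ => Fin 1 × Bool) _ _ fun _ => rfl).symm

lemma c9 : c (pz (t := 9)) 9 = 1 ∧ c (pz (t := 9)) (-9) = 1 := by
  simp only [c, card_filter, sum_cons, Fintype.sum_unique]
  decide +kernel

lemma c10 : ∀ j : Fin 11, c (pz (t := 10)) (2 * (j : ℕ) - 10) = Nat.choose 10 j := by
  simp only [c, card_filter, sum_cons, Fintype.sum_unique]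
  decide +kernel

lemma range10 (w : Fin 10 → Fin 1 × Bool) : ∃ j : Fin 11, pz w = 2 * (j : ℕ) - 10 := by
  refine ⟨⟨(univ.filter fun r => (w r).2 = true).card, Nat.lt_succ_of_le
    ((card_filter_le _ _).trans (by simp))⟩, ?_⟩
  have : ∀ r, (if (w r).2 then (1 : ℤ) else -1) = 2 * (if (w r).2 then 1 else 0) - 1 := fun r => by
    split_ifs <;> rfl
  simp only [pz, this, sum_sub_distrib, ← mul_sum, card_filter]
  simp

theorem result : ∃ d ≥ 1, ∃ n ≥ 1, ∃ t, p n d (t + 1) < p n d t := by
  refine ⟨1, le_rfl, 540, by norm_num, 9, ?_⟩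
  have h1 := lower (pz (t := 9)) 540 (s := 9) (s' := -9)
  have h2 := upper (pz (t := 10)) 540 (s := 10) (s' := -10) {-8, -6, -4, -2, 0, 2, 4, 6, 8}
    fun w => by
      obtain ⟨j, hj⟩ := range10 w
      rw [hj]; revert j; simp only [mem_insert, mem_singleton]; intro j _; omega
  have k0 : c (pz (t := 10)) (-10) = 1 := c10 0
  have k1 : c (pz (t := 10)) (-8) = 10 := c10 1
  have k2 : c (pz (t := 10)) (-6) = 45 := c10 2
  have k3 : c (pz (t := 10)) (-4) = 120 := c10 3
  have k4 : c (pz (t := 10)) (-2) = 210 := c10 4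
  have k5 : c (pz (t := 10)) 0 = 252 := c10 5
  have k6 : c (pz (t := 10)) 2 = 210 := c10 6
  have k7 : c (pz (t := 10)) 4 = 120 := c10 7
  have k8 : c (pz (t := 10)) 6 = 45 := c10 8
  have k9 : c (pz (t := 10)) 8 = 10 := c10 9
  have k10 : c (pz (t := 10)) 10 = 1 := c10 10
  rw [card_AA _ _ (by norm_num), card_A, card_A, c9.1, c9.2] at h1
  rw [card_AA _ _ (by norm_num)] at h2
  simp only [card_A] at h2
  rw [sum_insert (by decide), sum_insert (by decide), sum_insert (by decide),
    sum_insert (by decide), sum_insert (by decide), sum_insert (by decide), sum_insert (by decide),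
    sum_insert (by decide), sum_singleton, k0, k1, k2, k3, k4, k5, k6, k7, k8, k9, k10] at h2
  simp only [Fintype.card_fun, Fintype.card_prod, Fintype.card_fin, Fintype.card_bool] at h1 h2
  simp only [p, ne_eq, pos_iff]
  simp only [ne_eq] at h1 h2
  generalize (univ.filter fun ω : Fin 540 → Fin 9 → Fin 1 × Bool =>
    ∃ i, ∀ j, ¬j = i → ¬pz (ω j) = pz (ω i)).card = a at h1 ⊢
  generalize (univ.filter fun ω : Fin 540 → Fin 10 → Fin 1 × Bool =>
    ∃ i, ∀ j, ¬j = i → ¬pz (ω j) = pz (ω i)).card = b at h2 ⊢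
  rw [div_lt_div_iff₀ (by positivity) (by positivity)]
  have : b * (2 * 1) ^ (540 * 9) < a * (2 * 1) ^ (540 * (9 + 1)) := by
    have e1 := Nat.mul_le_mul_right ((2 * 1) ^ (540 * (9 + 1))) (Nat.sub_le_iff_le_add.2 h1)
    have e2 := Nat.mul_le_mul_right ((2 * 1) ^ (540 * 9)) (Nat.le_sub_of_add_le h2)
    exact e2.trans_lt (lt_of_lt_of_le (by decide +kernel) e1)
  exact_mod_cast this

end Pool.Agent.Results.MP_ca7dc8_pr.Drop
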